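import Mathlib

/-!
# Bernoulli convolutions: the approximating densities tend to zero in the singular case
-/

set_option autoImplicit false

open MeasureTheory Filter Set Topology
open scoped ENNReal

namespace Pool.Agent.Results.MP_ddcbd8_an.SingularCase

/-- The fair coin: the uniform probability measure on `{0,1}`, written as `{false, true}`. -/
noncomputable def coin : Measure Bool := (2 : ℝ≥0∞)⁻¹ • (Measure.dirac false + Measure.dirac true)

/-- The digit `0` or `1`. -/
def digit (b : Bool) : ℝ := if b then 1 else 0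

/-- The law of a sequence of independent fair coin tosses. -/
noncomputable def tosses : Measure (ℕ → Bool) := Measure.infinitePi (fun _ => coin)

/-- The value of the series `∑ a_k β^{-k}`, `k ≥ 1` (here `a_k` is `a (k-1)`). -/
noncomputable def series (β : ℝ) (a : ℕ → Bool) : ℝ := ∑' k, digit (a k) * (β ^ (k + 1))⁻¹

/-- The Bernoulli convolution: the law of `∑ a_k β^{-k}` for independent fair coin tosses `a_k`. -/
noncomputable def bernoulliConv (β : ℝ) : Measure ℝ := tosses.map (series β)

/-- The interval `[0, 1/(β-1)]`. -/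
def interval (β : ℝ) : Set ℝ := Icc 0 (1 / (β - 1))

open Classical in
/-- The densities `f_n`: `f_0 = (β-1) 1_I` and `f_{n+1}(x) = (β/2) (f_n(β x) + f_n(β x - 1))` on
`I`, and `f_{n+1} = 0` outside `I`. -/
noncomputable def dens (β : ℝ) : ℕ → ℝ → ℝ
  | 0 => fun x => if x ∈ interval β then β - 1 else 0
  | n + 1 => fun x =>
      if x ∈ interval β then β / 2 * (dens β n (β * x) + dens β n (β * x - 1)) else 0

instance : IsProbabilityMeasure coin := ⟨by
  simp only [coin, Measure.smul_apply, Measure.add_apply, measure_univ, smul_eq_mul]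
  rw [one_add_one_eq_two, ENNReal.inv_mul_cancel (by norm_num) (by norm_num)]⟩

instance : IsProbabilityMeasure tosses := by unfold tosses; infer_instance

/-- Put the digit `b` in front of a sequence. -/
def cons (b : Bool) (a : ℕ → Bool) : ℕ → Bool
  | 0 => b
  | n + 1 => a n

lemma measurable_cons (b : Bool) : Measurable (cons b) := by
  refine measurable_pi_lambda _ fun n => ?_
  cases n with
  | zero => exact measurable_const
  | succ n => exact measurable_pi_apply n

lemma tosses_cons (b : Bool) (s : Finset ℕ) (t : ℕ → Set Bool) (ht : ∀ i, MeasurableSet (t i)) :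
    tosses.map (cons b) (Set.pi s t) =
      (if 0 ∈ s then (Measure.dirac b) (t 0) else 1) * ∏ i ∈ s.erase 0, coin (t i) := by
  rw [Measure.map_apply (measurable_cons b) (MeasurableSet.pi s.countable_toSet (fun i _ => ht i))]
  have h1 : (cons b) ⁻¹' (Set.pi s t) =
      {a | 0 ∈ s → b ∈ t 0} ∩ Set.pi (s.preimage Nat.succ Nat.succ_injective.injOn : Finset ℕ)
        (fun i => t (i + 1)) := by
    ext a
    simp only [mem_preimage, Set.mem_pi, Finset.mem_coe, mem_inter_iff, mem_ofPred_eq,
      Finset.mem_preimage]
    constructor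
    · intro h
      exact ⟨fun h0 => h 0 h0, fun i hi => h (i + 1) hi⟩
    · rintro ⟨h0, h⟩ i hi
      cases i with
      | zero => exact h0 hi
      | succ n => exact h n hi
  have h2 : ∏ i ∈ s.erase 0, coin (t i) =
      ∏ i ∈ s.preimage Nat.succ Nat.succ_injective.injOn, coin (t (i + 1)) := by
    symm
    refine Finset.prod_bij (fun i _ => i + 1) ?_ ?_ ?_ ?_
    · intro i hi
      simp only [Finset.mem_preimage] at hi
      simp [hi]
    · intro i _ j _ h
      exact Nat.succ_injective h
    · intro i hi
      simp only [Finset.mem_erase] at hi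
      obtain ⟨n, rfl⟩ := Nat.exists_eq_succ_of_ne_zero hi.1
      exact ⟨n, by simpa using hi.2, rfl⟩
    · intro i _
      rfl
  rw [h1, h2]
  by_cases h0 : 0 ∈ s
  · by_cases hb : b ∈ t 0
    · have : {a : ℕ → Bool | 0 ∈ s → b ∈ t 0} = univ := by ext a; simp [hb]
      rw [this, univ_inter, tosses, Measure.infinitePi_pi (fun _ => coin) (fun i _ => ht (i + 1))]
      simp [h0, hb]
    · have : {a : ℕ → Bool | 0 ∈ s → b ∈ t 0} = ∅ := by ext a; simp [hb, h0]
      rw [this, empty_inter, measure_empty]
      simp [h0, hb]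
  · have : {a : ℕ → Bool | 0 ∈ s → b ∈ t 0} = univ := by ext a; simp [h0]
    rw [this, univ_inter, tosses, Measure.infinitePi_pi (fun _ => coin) (fun i _ => ht (i + 1))]
    simp [h0]

lemma tosses_eq : tosses = (2 : ℝ≥0∞)⁻¹ • (tosses.map (cons false) + tosses.map (cons true)) := by
  symm
  refine Measure.eq_infinitePi (fun _ => coin) fun s t ht => ?_
  rw [Measure.smul_apply, Measure.add_apply, tosses_cons _ _ _ ht, tosses_cons _ _ _ ht, smul_eq_mul,
    ← add_mul, ← mul_assoc]
  by_cases h0 : 0 ∈ s
  · rw [if_pos h0, if_pos h0, ← Finset.mul_prod_erase s _ h0]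
    congr 1
  · rw [if_neg h0, if_neg h0, Finset.erase_eq_of_notMem h0, one_add_one_eq_two,
      ENNReal.inv_mul_cancel (by norm_num) (by norm_num), one_mul]

lemma digit_nonneg (b : Bool) : 0 ≤ digit b := by unfold digit; split <;> norm_num

lemma digit_le (b : Bool) : digit b ≤ 1 := by unfold digit; split <;> norm_num

lemma hasSum_geo {β : ℝ} (hβ : 1 < β) : HasSum (fun k : ℕ => (β ^ (k + 1))⁻¹) (1 / (β - 1)) := by
  have h0 : 0 < β := by linarith
  have h : HasSum (fun k : ℕ => β⁻¹ ^ k) (1 - β⁻¹)⁻¹ :=
    hasSum_geometric_of_lt_one (by positivity) (inv_lt_one_of_one_lt₀ hβ)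
  have h2 := h.mul_left β⁻¹
  have e : β⁻¹ * (1 - β⁻¹)⁻¹ = 1 / (β - 1) := by
    have : β - 1 ≠ 0 := by linarith
    field_simp
  rw [e] at h2
  refine h2.congr_fun ?_ |> fun h => h
  intro k
  rw [← inv_pow, pow_succ, mul_comm]

lemma summable_series {β : ℝ} (hβ : 1 < β) (a : ℕ → Bool) :
    Summable (fun k : ℕ => digit (a k) * (β ^ (k + 1))⁻¹) := by
  have h0 : 0 < β := by linarith
  refine Summable.of_nonneg_of_le (fun k => mul_nonneg (digit_nonneg _) (by positivity)) (fun k => ?_)
    (hasSum_geo hβ).summable
  exact mul_le_of_le_one_left (by positivity) (digit_le _)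

lemma series_mem {β : ℝ} (hβ : 1 < β) (a : ℕ → Bool) : series β a ∈ interval β := by
  have h0 : 0 < β := by linarith
  constructor
  · exact tsum_nonneg fun k => mul_nonneg (digit_nonneg _) (by positivity)
  · rw [← (hasSum_geo hβ).tsum_eq]
    refine (summable_series hβ a).tsum_le_tsum (fun k => ?_) (hasSum_geo hβ).summable
    exact mul_le_of_le_one_left (by positivity) (digit_le _)

lemma series_cons {β : ℝ} (hβ : 1 < β) (b : Bool) (a : ℕ → Bool) :
    series β (cons b a) = (digit b + series β a) / β := by
  have h0 : 0 < β := by linarith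
  unfold series
  rw [(summable_series hβ (cons b a)).tsum_eq_zero_add]
  have : ∀ k : ℕ, digit (cons b a (k + 1)) * (β ^ (k + 1 + 1))⁻¹ =
      (digit (a k) * (β ^ (k + 1))⁻¹) * β⁻¹ := by
    intro k
    rw [pow_succ β (k + 1), mul_inv, mul_assoc]
    rfl
  simp_rw [this]
  rw [tsum_mul_right]
  simp only [cons, zero_add, pow_one]
  field_simp

lemma measurable_series (β : ℝ) (hβ : 1 < β) : Measurable (series β) := by
  have hd : Measurable digit := measurable_from_top
  refine measurable_of_tendsto_metrizable (f := fun n (a : ℕ → Bool) =>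
    ∑ k ∈ Finset.range n, digit (a k) * (β ^ (k + 1))⁻¹) (fun n => ?_) ?_
  · refine Finset.measurable_sum _ fun k _ => ?_
    exact (hd.comp (measurable_pi_apply k)).mul_const _
  · rw [tendsto_pi_nhds]
    intro a
    exact (summable_series hβ a).hasSum.tendsto_sum_nat

/-- Self-similarity of the Bernoulli convolution on intervals. -/
lemma bernoulliConv_Icc {β : ℝ} (hβ : 1 < β) (u v : ℝ) :
    bernoulliConv β (Icc u v) = 2⁻¹ * (bernoulliConv β (Icc (β * u) (β * v)) +
      bernoulliConv β (Icc (β * u - 1) (β * v - 1))) := by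
  have h0 : 0 < β := by linarith
  have hm := measurable_series β hβ
  have key : ∀ b : Bool, tosses (cons b ⁻¹' (series β ⁻¹' Icc u v)) =
      bernoulliConv β (Icc (β * u - digit b) (β * v - digit b)) := by
    intro b
    rw [bernoulliConv, Measure.map_apply hm measurableSet_Icc]
    congr 1
    ext a
    simp only [mem_preimage, mem_Icc]
    rw [series_cons hβ, le_div_iff₀ h0, div_le_iff₀ h0]
    constructor
    · rintro ⟨h1, h2⟩
      constructor <;> nlinarith
    · rintro ⟨h1, h2⟩
      constructor <;> nlinarith
  have k0 := key false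
  have k1 := key true
  simp only [digit, Bool.false_eq_true, if_false, if_true, sub_zero] at k0 k1
  rw [← k0, ← k1]
  conv_lhs => rw [bernoulliConv, Measure.map_apply hm measurableSet_Icc, tosses_eq]
  rw [Measure.smul_apply, Measure.add_apply, Measure.map_apply (measurable_cons _)
    (hm measurableSet_Icc), Measure.map_apply (measurable_cons _) (hm measurableSet_Icc),
    smul_eq_mul]

lemma isProbabilityMeasure_bernoulliConv {β : ℝ} (hβ : 1 < β) :
    IsProbabilityMeasure (bernoulliConv β) :=
  Measure.isProbabilityMeasure_map (measurable_series β hβ).aemeasurable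

lemma bernoulliConv_interval {β : ℝ} (hβ : 1 < β) (u v : ℝ) (hu : u ≤ 0) (hv : 1 / (β - 1) ≤ v) :
    bernoulliConv β (Icc u v) = 1 := by
  rw [bernoulliConv, Measure.map_apply (measurable_series β hβ) measurableSet_Icc]
  have : series β ⁻¹' Icc u v = univ := by
    ext a
    have := series_mem hβ a
    simp only [interval, mem_Icc] at this
    simp only [mem_preimage, mem_Icc, mem_univ, iff_true]
    exact ⟨hu.trans this.1, this.2.trans hv⟩
  rw [this, measure_univ]

lemma dens_nonneg {β : ℝ} (hβ : 1 < β) (n : ℕ) : ∀ x, 0 ≤ dens β n x := by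
  induction n with
  | zero =>
    intro x
    simp only [dens]
    split_ifs <;> linarith
  | succ n ih =>
    intro x
    simp only [dens]
    split_ifs
    · exact mul_nonneg (by linarith) (add_nonneg (ih _) (ih _))
    · exact le_rfl

/-- The radius `β^{-n}/(β-1)`. -/
noncomputable def rad (β : ℝ) (n : ℕ) : ℝ := (β ^ n)⁻¹ / (β - 1)

lemma rad_pos {β : ℝ} (hβ : 1 < β) (n : ℕ) : 0 < rad β n := by
  have h0 : 0 < β := by linarith
  have : 0 < β - 1 := by linarith
  unfold rad
  positivity

lemma rad_succ {β : ℝ} (hβ : 1 < β) (n : ℕ) : β * rad β (n + 1) = rad β n := by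
  have h0 : 0 < β := by linarith
  have : 0 < β - 1 := by linarith
  unfold rad
  rw [pow_succ]
  field_simp

/-- The main estimate: `f_n(x) r_n ≤ ν_β [x - r_n, x + r_n]`. -/
lemma dens_le {β : ℝ} (hβ : 1 < β) (n : ℕ) : ∀ x, dens β n x * rad β n ≤
    (bernoulliConv β).real (Icc (x - rad β n) (x + rad β n)) := by
  have h0 : 0 < β := by linarith
  have h1 : 0 < β - 1 := by linarith
  have := isProbabilityMeasure_bernoulliConv hβ
  induction n with
  | zero =>
    intro x
    simp only [dens]
    split_ifs with hx
    · simp only [interval, mem_Icc] at hx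
      have hr : rad β 0 = 1 / (β - 1) := by simp [rad]
      rw [hr, measureReal_def, bernoulliConv_interval hβ _ _ (by linarith [hx.2])
        (by linarith [hx.1])]
      simp [h1.ne']
    · rw [zero_mul]
      exact measureReal_nonneg
  | succ n ih =>
    intro x
    simp only [dens]
    split_ifs with hx
    · have a1 := ih (β * x)
      have a2 := ih (β * x - 1)
      have hs := rad_succ hβ n
      have e : (bernoulliConv β).real (Icc (x - rad β (n + 1)) (x + rad β (n + 1))) =
          2⁻¹ * ((bernoulliConv β).real (Icc (β * x - rad β n) (β * x + rad β n)) +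
            (bernoulliConv β).real (Icc (β * x - 1 - rad β n) (β * x - 1 + rad β n))) := by
        rw [measureReal_def, bernoulliConv_Icc hβ, ENNReal.toReal_mul, ENNReal.toReal_add
          (measure_ne_top _ _) (measure_ne_top _ _)]
        simp only [ENNReal.toReal_inv, ENNReal.toReal_ofNat, measureReal_def]
        rw [show β * (x - rad β (n + 1)) = β * x - rad β n by rw [mul_sub, hs],
          show β * (x + rad β (n + 1)) = β * x + rad β n by rw [mul_add, hs],
          show β * x - rad β n - 1 = β * x - 1 - rad β n by ring,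
          show β * x + rad β n - 1 = β * x - 1 + rad β n by ring]
      rw [e]
      calc β / 2 * (dens β n (β * x) + dens β n (β * x - 1)) * rad β (n + 1)
          = 2⁻¹ * (dens β n (β * x) * rad β n + dens β n (β * x - 1) * rad β n) := by
            rw [← hs]; ring
        _ ≤ _ := by gcongr
    · rw [zero_mul]
      exact measureReal_nonneg

lemma tendsto_rad {β : ℝ} (hβ : 1 < β) : Tendsto (rad β) atTop (𝓝 0) := by
  have h : Tendsto (fun n : ℕ => β ^ n) atTop atTop := tendsto_pow_atTop_atTop_of_one_lt hβ
  have h2 := (tendsto_inv_atTop_zero.comp h).div_const (β - 1)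
  rw [zero_div] at h2
  exact h2

/-- **Q1.** For every `β ∈ (1,2)` (in fact for every `β > 1`) whose Bernoulli convolution is
singular, `f_n(x) → 0` for Lebesgue almost every `x`. -/
theorem result (β : ℝ) (h1 : 1 < β) (_h2 : β < 2) (hsing : bernoulliConv β ⟂ₘ volume) :
    ∀ᵐ x : ℝ ∂volume, Tendsto (fun n => dens β n x) atTop (𝓝 0) := by
  have := isProbabilityMeasure_bernoulliConv h1
  have hd := Besicovitch.ae_tendsto_rnDeriv (bernoulliConv β) (volume : Measure ℝ)
  have hz : (bernoulliConv β).rnDeriv volume =ᵐ[volume] 0 :=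
    (Measure.rnDeriv_eq_zero _ _).2 hsing
  filter_upwards [hd, hz] with x hx hx0
  rw [hx0] at hx
  have hr : Tendsto (rad β) atTop (𝓝[>] 0) :=
    tendsto_nhdsWithin_iff.2 ⟨tendsto_rad h1, Eventually.of_forall fun n => rad_pos h1 n⟩
  have h3 := hx.comp hr
  have h4 : Tendsto (fun n => 2 * (bernoulliConv β (Metric.closedBall x (rad β n)) /
      volume (Metric.closedBall x (rad β n))).toReal) atTop (𝓝 0) := by
    have := (ENNReal.tendsto_toReal ENNReal.zero_ne_top).comp h3
    simpa using this.const_mul 2
  refine squeeze_zero (fun n => dens_nonneg h1 n x) (fun n => ?_) h4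
  have h5 := dens_le h1 n x
  have hp := rad_pos h1 n
  rw [Real.closedBall_eq_Icc, Real.volume_Icc, ENNReal.toReal_div, ENNReal.toReal_ofReal
    (by linarith)]
  have e : x + rad β n - (x - rad β n) = 2 * rad β n := by ring
  rw [e, ← measureReal_def]
  have : 2 * ((bernoulliConv β).real (Icc (x - rad β n) (x + rad β n)) / (2 * rad β n)) =
      (bernoulliConv β).real (Icc (x - rad β n) (x + rad β n)) / rad β n := by
    field_simp
  rw [this, le_div_iff₀ hp]
  exact h5

end Pool.Agent.Results.MP_ddcbd8_an.SingularCase
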